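import Pool.Agent.H483.FE.Suff

set_option autoImplicit false

/-!
# Which functional equations of degree `> 2` occur in `𝒜^#`

For a given conductor `Q > 0`, root number `ω` and gamma factor `G` as in (P3):

* if some member of `𝒜^#` (of any degree) satisfies the functional equation with `(Q, ω, G)`, then `G` has
  only finitely many zeros;
* conversely, if `G` has degree `d > 2` and only finitely many zeros (for instance if `G` is any product of
  functions `Γ(λ_j s + μ_j)`, `μ_j ∈ ℂ` arbitrary), then for EVERY `Q > 0` and EVERY `ω` the real vector space of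
  the entire functions in `𝒜^# ∪ {0}` that satisfy the functional equation has infinite dimension, even if one
  asks that the first `N` coefficients vanish and that the series converges absolutely for `σ > σ₀`, where
  `σ₀ > 1/2 + 1/d` is given (so one can take `σ₀ < 1`).

In particular Q1 fails for every real `d > 2`.

The proof: with `α < 1/2` and `α d ≥ 1` one has `|s γ(s)| ≪ |γ(s + 2α)|` on `Re s = 1/2 - α`, where `γ = Q^s G` (up to
a symmetric polynomial factor). Hence, by Plancherel, the functions `h(y) = κ K(y + v) - conj κ e^{-v} K(y - v)`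
(`K` = inverse Mellin transform of `γ`) satisfy `∫ e^{(1-2α)y} |h'|² ≤ C ∫ e^{(1+2α)y} |h|²`, and a Poincaré
inequality gives `∫ e^{(1+2α)y} |h|² ≤ C ∑ w_k |h(y_k)|²` with `y_k = log (2 (X + k))` for all but finitely many `k`.
By the Riesz representation theorem the values at further points are bounded functionals of the samples; the
finitely many remaining nodes are eliminated by linear algebra. This gives a theta series, hence a Dirichlet series.
-/

namespace Pool.Agent.Results.MP_bac04d_nt.EveryGammaFactor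

open Complex Polynomial
open scoped ComplexConjugate

/-- The gamma factor `G(s) = ∏_j Γ(λ_j s + μ_j) · ∏_j Γ(λ'_j s + μ'_j)⁻¹`. -/
noncomputable def gammaFactor {r r' : ℕ} (lam : Fin r → ℝ) (mu : Fin r → ℂ)
    (lam' : Fin r' → ℝ) (mu' : Fin r' → ℂ) (s : ℂ) : ℂ :=
  (∏ j, Complex.Gamma ((lam j : ℂ) * s + mu j)) * ∏ j, (Complex.Gamma ((lam' j : ℂ) * s + mu' j))⁻¹

/-- None of the factors `Γ(λ_j s + μ_j)` has a pole at `s`. -/
def NoPole {r : ℕ} (lam : Fin r → ℝ) (mu : Fin r → ℂ) (s : ℂ) : Prop :=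
  ∀ j, ∀ n : ℕ, (lam j : ℂ) * s + mu j ≠ -(n : ℂ)

/-- The functional equation (P3): `Φ(s) = Q^s G(s) F(s)` satisfies `Φ(s) = ω conj (Φ(1 - conj s))`, as an
identity of meromorphic functions, i.e. at all `s` such that `F` is analytic at `s` and `1 - conj s` and no
factor `Γ(λ_j s + μ_j)` has a pole there. -/
def FunctionalEquation (F : ℂ → ℂ) (Q : ℝ) (ω : ℂ) {r r' : ℕ} (lam : Fin r → ℝ) (mu : Fin r → ℂ)
    (lam' : Fin r' → ℝ) (mu' : Fin r' → ℂ) : Prop :=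
  ∀ s : ℂ, AnalyticAt ℂ F s → AnalyticAt ℂ F (1 - conj s) →
    NoPole lam mu s → NoPole lam mu (1 - conj s) →
    (Q : ℂ) ^ s * gammaFactor lam mu lam' mu' s * F s =
      ω * conj ((Q : ℂ) ^ (1 - conj s) * gammaFactor lam mu lam' mu' (1 - conj s) * F (1 - conj s))

/-- `F ∈ 𝒜^#`, and (P3) holds with the data `Q`, `ω`, `G = gammaFactor lam mu lam' mu'`. -/
structure InASharp (F : ℂ → ℂ) (Q : ℝ) (ω : ℂ) {r r' : ℕ} (lam : Fin r → ℝ) (mu : Fin r → ℂ)
    (lam' : Fin r' → ℝ) (mu' : Fin r' → ℂ) : Prop where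
  meromorphic : ∀ z, MeromorphicAt F z
  nonzero : ∃ z, AnalyticAt ℂ F z ∧ F z ≠ 0
  P1 : ∃ (a : ℕ → ℂ) (σ₀ : ℝ), ∀ s : ℂ, σ₀ < s.re → LSeriesSummable a s ∧ F s = LSeries a s
  P2 : ∃ P : Polynomial ℂ, P ≠ 0 ∧ ∃ H : ℂ → ℂ, Differentiable ℂ H ∧
    (∀ s, AnalyticAt ℂ F s → H s = P.eval s * F s) ∧
    ∀ σ₁ σ₂ : ℝ, ∃ C M : ℝ, ∀ s : ℂ, σ₁ ≤ s.re → s.re ≤ σ₂ → ‖H s‖ ≤ C * (1 + |s.im|) ^ M
  P3 : FunctionalEquation F Q ω lam mu lam' mu'

/-- Admissible data for (P3). -/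
structure Data (Q : ℝ) (ω : ℂ) {r r' : ℕ} (lam : Fin r → ℝ) (lam' : Fin r' → ℝ) : Prop where
  Q_pos : 0 < Q
  norm_ω : ‖ω‖ = 1
  lam_pos : ∀ j, 0 < lam j
  lam'_pos : ∀ j, 0 < lam' j

/-- The degree. -/
noncomputable def degree {r r' : ℕ} (lam : Fin r → ℝ) (lam' : Fin r' → ℝ) : ℝ := 2 * ∑ j, lam j - 2 * ∑ j, lam' j

/-- `G` has only finitely many zeros in the complex plane. -/
def FinitelyManyZeros {r r' : ℕ} (lam : Fin r → ℝ) (mu : Fin r → ℂ) (lam' : Fin r' → ℝ) (mu' : Fin r' → ℂ) : Prop :=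
  {s : ℂ | 0 < meromorphicOrderAt (gammaFactor lam mu lam' mu') s}.Finite

/-- **Main result.** -/
theorem result :
    (∀ (r r' : ℕ) (Q : ℝ) (ω : ℂ) (lam : Fin r → ℝ) (mu : Fin r → ℂ) (lam' : Fin r' → ℝ) (mu' : Fin r' → ℂ),
      Data Q ω lam lam' →
      ((∃ F : ℂ → ℂ, InASharp F Q ω lam mu lam' mu') → FinitelyManyZeros lam mu lam' mu') ∧
      (FinitelyManyZeros lam mu lam' mu' → 2 < degree lam lam' →
        ∀ σ₀ : ℝ, 1 / 2 + 1 / degree lam lam' < σ₀ → ∀ (N : ℕ) (W : Submodule ℝ (ℂ → ℂ)), FiniteDimensional ℝ W →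
          ∃ F : ℂ → ℂ, F ∉ W ∧ InASharp F Q ω lam mu lam' mu' ∧ Differentiable ℂ F ∧
            ∃ a : ℕ → ℂ, (∀ n, n ≤ N → a n = 0) ∧
              ∀ s : ℂ, σ₀ < s.re → LSeriesSummable a s ∧ F s = LSeries a s)) ∧
    (∀ (r : ℕ) (lam : Fin r → ℝ) (mu : Fin r → ℂ), (∀ j, 0 < lam j) →
      FinitelyManyZeros lam mu (r' := 0) Fin.elim0 Fin.elim0) ∧
    ∀ d : ℝ, 2 < d → ∀ W : Submodule ℝ (ℂ → ℂ), FiniteDimensional ℝ W →
      ∃ (F : ℂ → ℂ) (r r' : ℕ) (Q : ℝ) (ω : ℂ) (lam : Fin r → ℝ) (mu : Fin r → ℂ) (lam' : Fin r' → ℝ)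
        (mu' : Fin r' → ℂ), F ∉ W ∧ Data Q ω lam lam' ∧ degree lam lam' = d ∧ InASharp F Q ω lam mu lam' mu' := by
  have main : ∀ (r r' : ℕ) (Q : ℝ) (ω : ℂ) (lam : Fin r → ℝ) (mu : Fin r → ℂ) (lam' : Fin r' → ℝ) (mu' : Fin r' → ℂ),
      Data Q ω lam lam' →
      ((∃ F : ℂ → ℂ, InASharp F Q ω lam mu lam' mu') → FinitelyManyZeros lam mu lam' mu') ∧
      (FinitelyManyZeros lam mu lam' mu' → 2 < degree lam lam' →
        ∀ σ₀ : ℝ, 1 / 2 + 1 / degree lam lam' < σ₀ → ∀ (N : ℕ) (W : Submodule ℝ (ℂ → ℂ)), FiniteDimensional ℝ W →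
          ∃ F : ℂ → ℂ, F ∉ W ∧ InASharp F Q ω lam mu lam' mu' ∧ Differentiable ℂ F ∧
            ∃ a : ℕ → ℂ, (∀ n, n ≤ N → a n = 0) ∧
              ∀ s : ℂ, σ₀ < s.re → LSeriesSummable a s ∧ F s = LSeries a s) := by
    intro r r' Q ω lam mu lam' mu' D
    constructor
    · rintro ⟨F, h⟩
      obtain ⟨a, σ₀, ha⟩ := h.P1
      obtain ⟨P, hP, H, hH, hPH, -⟩ := h.P2
      exact Pool.Agent.H483.FE.zeros_finite D.lam_pos D.lam'_pos D.Q_pos D.norm_ω h.meromorphic h.nonzero ha hP hH hPH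
        h.P3
    · intro hz hd σ₀ hσ₀ N W hW
      have e : degree lam lam' = 2 * (∑ j, lam j - ∑ j, lam' j) := by unfold degree; ring
      rw [e] at hd hσ₀
      obtain ⟨F, hF, hFW⟩ := Pool.Agent.H483.FE.infinite_solutions D.lam_pos D.lam'_pos D.Q_pos D.norm_ω
        (by linarith) hz hσ₀ N W hW
      obtain ⟨a, ha, ha'⟩ := hF.series
      have hnz : ∃ z, F z ≠ 0 := by
        by_contra h
        push Not at h
        apply hFW
        have : F = 0 := funext h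
        rw [this]
        exact W.zero_mem
      obtain ⟨z, hz0⟩ := hnz
      exact ⟨F, hFW, ⟨fun z => (hF.diff.analyticAt z).meromorphicAt, ⟨z, hF.diff.analyticAt z, hz0⟩, ⟨a, σ₀, ha'⟩,
        ⟨1, one_ne_zero, F, hF.diff, fun s _ => by simp, hF.growth⟩, fun s _ _ h1 h2 => hF.feq s h1 h2⟩, hF.diff,
        a, ha, ha'⟩
  have hz : ∀ (r : ℕ) (lam : Fin r → ℝ) (mu : Fin r → ℂ), (∀ j, 0 < lam j) →
      FinitelyManyZeros lam mu (r' := 0) Fin.elim0 Fin.elim0 := by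
    intro r lam mu hl
    unfold FinitelyManyZeros
    convert Set.finite_empty
    rw [Set.eq_empty_iff_forall_notMem]
    intro s hs
    have h1 : gammaFactor lam mu (r' := 0) Fin.elim0 Fin.elim0 = fun z => (Pool.Agent.H483.FE.gi lam mu z)⁻¹ := by
      funext z
      unfold gammaFactor Pool.Agent.H483.FE.gi
      rw [← Finset.prod_inv_distrib]
      simp
    obtain ⟨n, hn⟩ := Pool.Agent.H483.FE.entire_order (Pool.Agent.H483.FE.gi_diff lam mu)
      (Pool.Agent.H483.FE.gi_exists_ne mu hl) s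
    rw [Set.mem_ofPred_eq, h1, fun_meromorphicOrderAt_inv, hn] at hs
    have h2 : ((0 : ℤ) : WithTop ℤ) < ((-(n : ℤ) : ℤ) : WithTop ℤ) := hs
    have h3 : (0 : ℤ) < -(n : ℤ) := by exact_mod_cast h2
    omega
  refine ⟨main, hz, fun d hd W hW => ?_⟩
  have D : Data 1 1 (r := 1) (r' := 0) (fun _ => d / 2) Fin.elim0 :=
    ⟨one_pos, norm_one, fun _ => by linarith, fun j => j.elim0⟩
  have hdeg : degree (r := 1) (r' := 0) (fun _ => d / 2) Fin.elim0 = d := by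
    unfold degree; simp; ring
  obtain ⟨F, h1, h2, -⟩ := (main 1 0 1 1 (fun _ => d / 2) (fun _ => 0) Fin.elim0 Fin.elim0 D).2
    (hz 1 _ _ D.lam_pos) (by rw [hdeg]; exact hd) (1 / 2 + 1 / d + 1) (by rw [hdeg]; linarith) 0 W hW
  exact ⟨F, 1, 0, 1, 1, fun _ => d / 2, fun _ => 0, Fin.elim0, Fin.elim0, h1, D, hdeg, h2⟩

end Pool.Agent.Results.MP_bac04d_nt.EveryGammaFactor
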